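import Pool.Agent.W912.ND.Defs

/-!
# Many changes make circuits shallow
-/

set_option autoImplicit false

namespace Pool.Agent.W376.ND

open Pool.Agent.NPC Pool.Agent.H620R2.Gauge Pool.Agent.H622R2.Ckt H568R2 Pool.Agent.H676
open Pool.Agent.W900.CH Filter
open Pool.Agent.W912.ND

theorem getD_app_false (x : List Bool) (k i : ℕ) :
    (x ++ List.replicate k false).getD i false = x.getD i false := by
  rw [List.getD_eq_getElem?_getD, List.getD_eq_getElem?_getD]
  rcases lt_or_ge i x.length with h | h
  · rw [List.getElem?_append_left h]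
  · rw [List.getElem?_append_right h, List.getElem?_eq_none h, List.getElem?_replicate]
    split_ifs <;> rfl

theorem wval_app (x v : List Bool) (k : ℕ) (w : Wire) :
    Wire.val (x ++ List.replicate k false) v w = Wire.val x v w := by
  cases w with
  | inp i => exact getD_app_false x k i
  | cst b => rfl
  | gate j => rfl

theorem gval_app (A : Oracle) (x v : List Bool) (k : ℕ) (g : Gate) :
    Gate.val A (x ++ List.replicate k false) v g = Gate.val A x v g := by
  cases g with
  | and r s => simp only [Gate.val, wval_app]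
  | or r s => simp only [Gate.val, wval_app]
  | not r => simp only [Gate.val, wval_app]
  | ask l =>
    have h : (Wire.val (x ++ List.replicate k false) v) = Wire.val x v := by
      funext w
      exact wval_app x v k w
    simp only [Gate.val, h]

theorem eval_app (A : Oracle) (x : List Bool) (k : ℕ) (C : Circuit) :
    C.eval A (x ++ List.replicate k false) = C.eval A x := by
  have h : gateVals A (x ++ List.replicate k false) C.gates = gateVals A x C.gates := by
    unfold gateVals
    congr 1
    funext v g
    rw [gval_app]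
  unfold Circuit.eval
  rw [h, wval_app]

/-- the wires -/
def wires (u : List Bool) (n k : ℕ) : List Wire :=
  u.map Wire.cst ++ ((List.range n).map Wire.inp ++ List.replicate k (Wire.cst false))

theorem wires_length (u : List Bool) (n k : ℕ) : (wires u n k).length = u.length + (n + k) := by
  simp [wires]

theorem wires_val (u x : List Bool) (n k : ℕ) (hx : x.length = n) :
    (wires u n k).map (Wire.val x []) = u ++ (x ++ List.replicate k false) := by
  unfold wires
  rw [List.map_append, List.map_append, List.map_map, List.map_map, List.map_replicate]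
  congr 1
  · have : (Wire.val x [] ∘ Wire.cst) = id := by
      funext b
      rfl
    rw [this, List.map_id]
  · congr 1
    apply List.ext_getElem
    · simp [hx]
    · intro i h1 h2
      simp only [List.getElem_map, List.getElem_range, Function.comp]
      show x.getD i false = x[i]
      rw [List.getD_eq_getElem?_getD, List.getElem?_eq_getElem h2]
      rfl

/-- the circuit -/
def circ (u : List Bool) (n k : ℕ) : Circuit := ⟨[Gate.ask (wires u n k)], Wire.gate 0⟩

theorem circ_eval (A : Oracle) (u x : List Bool) (n k : ℕ) (hx : x.length = n) :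
    (circ u n k).eval A x = A (u ++ (x ++ List.replicate k false)) := by
  have h : (circ u n k).eval A x = A ((wires u n k).map (Wire.val x [])) := rfl
  rw [h, wires_val u x n k hx]

theorem circ_size (u : List Bool) (n k : ℕ) : (circ u n k).size = u.length + (n + k) + 1 := by
  have h : (circ u n k).size = (wires u n k).length + 1 + 0 := rfl
  rw [h, wires_length, Nat.add_zero]

theorem foldr_wdep (l : List Wire) : (l.map (wdep [])).foldr max 0 = 0 := by
  induction l with
  | nil => rfl
  | cons w l ih =>
    rw [List.map_cons, List.foldr_cons, ih]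
    cases w <;> rfl

theorem circ_depth (u : List Bool) (n k : ℕ) :
    depth (circ u n k) = max 1 (Nat.clog 2 (u.length + (n + k))) := by
  have h : depth (circ u n k) = ((wires u n k).map (wdep [])).foldr max 0 +
      max 1 (Nat.clog 2 (wires u n k).length) := rfl
  rw [h, foldr_wdep, wires_length, Nat.zero_add]

theorem clog_pow_le (S e : ℕ) (hS : 2 ≤ S) : Nat.clog 2 (S ^ e) ≤ 2 * e * Nat.log 2 S := by
  apply Nat.clog_le_of_le_pow
  have h1 : S ≤ 2 ^ (Nat.log 2 S + 1) := (Nat.lt_pow_succ_log_self (by norm_num) S).le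
  have h2 : 1 ≤ Nat.log 2 S := Nat.log_pos (by norm_num) hS
  calc S ^ e ≤ (2 ^ (Nat.log 2 S + 1)) ^ e := Nat.pow_le_pow_left h1 e
    _ = 2 ^ ((Nat.log 2 S + 1) * e) := by rw [pow_mul]
    _ ≤ 2 ^ (2 * e * Nat.log 2 S) := by
        apply Nat.pow_le_pow_right (by norm_num)
        nlinarith [Nat.mul_le_mul_left e h2]

theorem numbers (e r S : ℕ) (hS : 2 ≤ S) (hr : r ≤ (S + 2) ^ e) :
    max 1 (Nat.clog 2 r) ≤ (4 * e + 1) * Nat.log 2 S ∧ r + 1 ≤ S ^ (4 * e + 1) := by
  have h0 : S + 2 ≤ S ^ 2 := by nlinarith
  have h1 : r ≤ S ^ (2 * e) := by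
    refine hr.trans ((Nat.pow_le_pow_left h0 e).trans ?_)
    rw [← pow_mul]
  have h2 : 1 ≤ Nat.log 2 S := Nat.log_pos (by norm_num) hS
  constructor
  · apply max_le
    · nlinarith [Nat.zero_le (4 * e * Nat.log 2 S)]
    · refine (Nat.clog_mono_right 2 h1).trans ((clog_pow_le S (2 * e) hS).trans ?_)
      nlinarith
  · have h3 : 1 ≤ S ^ (2 * e) := Nat.one_le_pow _ _ (by omega)
    calc r + 1 ≤ S ^ (2 * e) * 2 := by omega
      _ ≤ S ^ (2 * e) * S := Nat.mul_le_mul_left _ hS
      _ = S ^ (2 * e + 1) := by rw [pow_succ]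
      _ ≤ S ^ (4 * e + 1) := Nat.pow_le_pow_right (by omega) (by omega)

theorem up (h1 : S_CODE) (h2 : S_CLOSE) : S_UP := by
  intro g hg O
  push Not at hg
  obtain ⟨ε, hε, hg⟩ := hg
  have hg' : ∀ᶠ n : ℕ in atTop, (2 : ℝ) ^ (n : ℝ) ^ ε < g n := by
    have := hg
    simpa [Filter.Frequently, not_not, not_le] using this
  obtain ⟨K, hK⟩ := h2 g ε hε hg'
  obtain ⟨A, R, u, hR, ⟨e, he⟩, hu, hA, hO, hb⟩ := h1 K O
  refine ⟨A, ?_, 4 * e + 1, ?_⟩
  · refine hK O A R (fun S => {y : List Bool | ∃ C x, C.size ≤ S ∧ x.length = S ∧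
      y = u S C ++ x}) hR ?_ hb ?_
    · rintro S y ⟨C, x, hC, hx, rfl⟩
      rw [List.length_append, hx, hu S C hC]
    · intro y hy
      apply hO
      rintro ⟨S, C, x, hC, hx, hxy⟩
      exact hy ⟨S, C, x, hC, hx, hxy⟩
  · intro n S C hS hn hC
    have hlen : (u S C).length + (n + (S - n)) = R S := by
      rw [Nat.add_sub_cancel' hn]
      exact hu S C hC
    obtain ⟨h3, h4⟩ := numbers e (R S) S hS (he S)
    refine ⟨circ (u S C) n (S - n), ?_, ?_, ?_⟩
    · rw [circ_depth, hlen]
      exact h3
    · rw [circ_size, hlen]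
      exact h4
    · intro x hx
      rw [circ_eval A (u S C) x n (S - n) hx, hA S C _ hC, eval_app]
      rw [List.length_append, List.length_replicate, hx]
      omega

end Pool.Agent.W376.ND
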